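import Pool.Agent.W_mrdp_h82.Atoms

/-!
Every r.e. predicate is defined by a finite system of equations `v l = T (v i + v j) + v i`
(`T s = s (s + 1) / 2`, Cantor pairing), each with one comparison `v k ≤ v j` or `v k < v j`.
The system has two further variables `a`, `b` with `v b = v a + v 0`, and whenever it is
solvable there is a solution with no value strictly between `v a` and `v b`.
-/

namespace Pool.Agent.W_59b51d_h88

open MRDP

/-- triangular numbers -/
def tri (s : ℕ) : ℕ := s * (s + 1) / 2

theorem two_tri (s : ℕ) : 2 * tri s = s * (s + 1) := by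
  unfold tri
  exact Nat.mul_div_cancel' (even_iff_two_dvd.1 (Nat.even_mul_succ_self s))

theorem tri_zero : tri 0 = 0 := rfl

theorem tri_succ (s : ℕ) : tri (s + 1) = tri s + s + 1 := by
  have h1 := two_tri s
  have h2 := two_tri (s + 1)
  have h3 : (s + 1) * (s + 1 + 1) = s * (s + 1) + 2 * (s + 1) := by ring
  omega

theorem tri_mono : Monotone tri := monotone_nat_of_le_succ fun n => by
  rw [tri_succ]; omega

theorem le_tri (s : ℕ) : s ≤ tri s := by
  induction s with
  | zero => exact Nat.zero_le _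
  | succ s ih => rw [tri_succ]; omega

theorem tri_add (x y : ℕ) : tri (x + y) = tri x + tri y + x * y := by
  have h1 := two_tri x
  have h2 := two_tri y
  have h3 := two_tri (x + y)
  have h4 : (x + y) * (x + y + 1) = x * (x + 1) + y * (y + 1) + 2 * (x * y) := by ring
  omega

/-- the diagonal of a Cantor pair is unique -/
theorem diag {s t i : ℕ} (hi : i ≤ t) (h1 : tri s ≤ tri t + i) (h2 : tri t + i ≤ tri s + s) :
    t = s := by
  rcases lt_trichotomy t s with h | h | h
  · have h3 := tri_mono (show t + 1 ≤ s from h)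
    rw [tri_succ] at h3
    omega
  · exact h
  · have h3 := tri_mono (show s + 1 ≤ t from h)
    rw [tri_succ] at h3
    omega

/-- a pairing equation with a comparison -/
structure PEq where
  /-- first argument of the pairing -/
  i : ℕ
  /-- second argument of the pairing -/
  j : ℕ
  /-- value of the pairing -/
  l : ℕ
  /-- compared with the second argument -/
  k : ℕ
  /-- strict comparison? -/
  strict : Bool
  deriving DecidableEq

/-- truth of an equation -/
def PEq.holds (e : PEq) (v : ℕ → ℕ) : Prop :=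
  v e.l = tri (v e.i + v e.j) + v e.i ∧ (if e.strict then v e.k < v e.j else v e.k ≤ v e.j)

/-- all variables are smaller than `N` -/
def PEq.lt (N : ℕ) (e : PEq) : Prop := e.i < N ∧ e.j < N ∧ e.l < N ∧ e.k < N

/-- all equations hold -/
def PSat (E : List PEq) (v : ℕ → ℕ) : Prop := ∀ e ∈ E, e.holds v

theorem PEq.lt.mono {N M : ℕ} (h : N ≤ M) {e : PEq} (he : e.lt N) : e.lt M := by
  simp only [PEq.lt] at *
  omega

theorem PSat.congr {N : ℕ} {E : List PEq} (hE : ∀ e ∈ E, e.lt N) {v w : ℕ → ℕ}
    (h : ∀ i < N, v i = w i) (hv : PSat E v) : PSat E w := by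
  intro e he
  obtain ⟨h1, h2, h3, h4⟩ := hE e he
  have h5 := hv e he
  simp only [PEq.holds] at h5 ⊢
  rw [← h _ h1, ← h _ h2, ← h _ h3, ← h _ h4]
  exact h5

theorem psat_append {E E' : List PEq} {v : ℕ → ℕ} : PSat (E ++ E') v ↔ PSat E v ∧ PSat E' v := by
  simp only [PSat, List.forall_mem_append]

theorem psat_cons {e : PEq} {E : List PEq} {v : ℕ → ℕ} :
    PSat (e :: E) v ↔ e.holds v ∧ PSat E v := by
  simp only [PSat, List.forall_mem_cons]

theorem psat_nil {v : ℕ → ℕ} : PSat [] v := by
  simp [PSat]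

/-- a gadget for the relation `R` on the variables smaller than `N`, with the fresh variables
`N, …, M - 1`; `o` is a variable with value `0`. -/
structure Gad (o N M : ℕ) (R : (ℕ → ℕ) → Prop) (E : List PEq) : Prop where
  le : N ≤ M
  lt : ∀ e ∈ E, e.lt M
  sound : ∀ v, v o = 0 → PSat E v → R v
  compl : ∀ v, v o = 0 → R v → ∃ v', (∀ i < N, v' i = v i) ∧ PSat E v'

theorem Gad.and {o N M K : ℕ} {R R' : (ℕ → ℕ) → Prop} {E E' : List PEq} (ho : o < N)
    (h : Gad o N M R E) (h' : Gad o M K R' E')
    (hR' : ∀ v w : ℕ → ℕ, (∀ i < N, v i = w i) → R' v → R' w) :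
    Gad o N K (fun v => R v ∧ R' v) (E ++ E') := by
  refine ⟨h.le.trans h'.le, ?_, ?_, ?_⟩
  · intro e he
    rcases List.mem_append.1 he with h1 | h1
    · exact (h.lt e h1).mono h'.le
    · exact h'.lt e h1
  · intro v hv hE
    rw [psat_append] at hE
    exact ⟨h.sound v hv hE.1, h'.sound v hv hE.2⟩
  · rintro v hv ⟨h1, h2⟩
    obtain ⟨v', h3, h4⟩ := h.compl v hv h1
    obtain ⟨v'', h5, h6⟩ := h'.compl v' (by rw [h3 o ho, hv])
      (hR' v v' (fun i hi => (h3 i hi).symm) h2)
    refine ⟨v'', fun i hi => ?_, ?_⟩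
    · rw [h5 i (lt_of_lt_of_le hi h.le), h3 i hi]
    · rw [psat_append]
      exact ⟨PSat.congr h.lt (fun i hi => (h5 i hi).symm) h4, h6⟩

theorem Gad.nil {o N : ℕ} : Gad o N N (fun _ => True) [] :=
  ⟨le_rfl, by simp, fun _ _ _ => trivial, fun v _ _ => ⟨v, fun _ _ => rfl, psat_nil⟩⟩

theorem Gad.congr {o N M : ℕ} {R R' : (ℕ → ℕ) → Prop} {E : List PEq} (h : Gad o N M R E)
    (hR : ∀ v, v o = 0 → (R v ↔ R' v)) : Gad o N M R' E :=
  ⟨h.le, h.lt, fun v hv hE => (hR v hv).1 (h.sound v hv hE),
    fun v hv h1 => h.compl v hv ((hR v hv).2 h1)⟩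

/-- the list of the equations of the sum gadget -/
def sumE (o N i j s : ℕ) : List PEq :=
  [⟨o, s, N, o, false⟩, ⟨i, j, N + 1, o, false⟩, ⟨s, o, N + 2, o, false⟩,
    ⟨o, N + 1, N + 3, N, false⟩, ⟨o, N + 2, N + 4, N + 1, false⟩]

theorem sumE_lt {o N i j s : ℕ} (ho : o < N) (hi : i < N) (hj : j < N) (hs : s < N) :
    ∀ e ∈ sumE o N i j s, e.lt (N + 5) := by
  intro e he
  simp only [sumE, List.mem_cons, List.not_mem_nil, or_false] at he
  rcases he with rfl | rfl | rfl | rfl | rfl <;> simp only [PEq.lt] <;> omega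

theorem sumE_sound {o N i j s : ℕ} {v : ℕ → ℕ} (hv : v o = 0) (h : PSat (sumE o N i j s) v) :
    v i + v j = v s := by
  simp only [sumE, psat_cons, PEq.holds, hv] at h
  obtain ⟨⟨h1, -⟩, ⟨h2, -⟩, ⟨h3, -⟩, ⟨-, h4⟩, ⟨-, h5⟩, -⟩ := h
  simp only [Nat.zero_add, Nat.add_zero, Bool.false_eq_true, if_false] at h1 h2 h3 h4 h5
  rw [h1, h2] at h4
  rw [h2, h3] at h5
  exact diag (Nat.le_add_right _ _) h4 h5

theorem sumE_compl {o N i j s : ℕ} (ho : o < N) (hi : i < N) (hj : j < N) (hs : s < N)
    {v : ℕ → ℕ} (hv : v o = 0) (h : v i + v j = v s) :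
    ∃ v' : ℕ → ℕ, (∀ x < N, v' x = v x) ∧ PSat (sumE o N i j s) v' ∧
      ∀ x, N ≤ x → v s ≤ v' x := by
  let w : ℕ → ℕ := fun x => if x < N then v x else if x = N then tri (v s)
    else if x = N + 1 then tri (v i + v j) + v i else if x = N + 2 then tri (v s) + v s
    else if x = N + 3 then tri (tri (v i + v j) + v i) else tri (tri (v s) + v s)
  have hw : ∀ x < N, w x = v x := fun x hx => if_pos hx
  have w0 : w N = tri (v s) := by simp [w]
  have w1 : w (N + 1) = tri (v i + v j) + v i := by simp [w]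
  have w2 : w (N + 2) = tri (v s) + v s := by simp [w]
  have w3 : w (N + 3) = tri (tri (v i + v j) + v i) := by simp [w]
  have w4 : w (N + 4) = tri (tri (v s) + v s) := by simp [w]
  refine ⟨w, hw, ?_, ?_⟩
  · simp only [sumE, psat_cons, PEq.holds, hw o ho, hw i hi, hw j hj, hw s hs, w0, w1, w2, w3, w4,
      hv, Nat.zero_add, Nat.add_zero, Bool.false_eq_true, if_false, Nat.zero_le, and_true,
      true_and]
    rw [h]
    exact ⟨Nat.le_add_right _ _, by omega, psat_nil⟩
  · intro x hx
    have h1 := le_tri (v s)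
    have h2 := le_tri (v i + v j)
    have h3 := le_tri (tri (v i + v j) + v i)
    have h4 := le_tri (tri (v s) + v s)
    simp only [w]
    rw [if_neg (by omega)]
    split_ifs <;> omega

theorem gad_sum {o N i j s : ℕ} (ho : o < N) (hi : i < N) (hj : j < N) (hs : s < N) :
    Gad o N (N + 5) (fun v => v i + v j = v s) (sumE o N i j s) := by
  refine ⟨by omega, sumE_lt ho hi hj hs, fun v hv h => sumE_sound hv h, fun v hv h => ?_⟩
  obtain ⟨v', h1, h2, -⟩ := sumE_compl ho hi hj hs hv h
  exact ⟨v', h1, h2⟩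

theorem gad_one {o N i : ℕ} (ho : o < N) (hi : i < N) :
    Gad o N N (fun v => v i = 1) [⟨o, i, i, o, true⟩] := by
  refine ⟨le_rfl, ?_, ?_, ?_⟩
  · intro e he
    rw [List.mem_singleton] at he
    subst he
    simp only [PEq.lt]
    omega
  · intro v hv h
    simp only [psat_cons, PEq.holds, hv, if_true, Nat.zero_add, Nat.add_zero] at h
    obtain ⟨⟨h1, h2⟩, -⟩ := h
    rcases Nat.lt_or_ge (v i) 2 with h3 | h3
    · omega
    · obtain ⟨t, ht⟩ : ∃ t, v i = t + 1 + 1 := ⟨v i - 2, by omega⟩
      rw [ht, tri_succ, tri_succ] at h1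
      omega
  · intro v hv h
    refine ⟨v, fun _ _ => rfl, ?_⟩
    simp only [psat_cons, PEq.holds, hv, h, if_true, Nat.zero_add, Nat.add_zero]
    exact ⟨⟨rfl, Nat.one_pos⟩, psat_nil⟩

theorem gad_pos {o N i : ℕ} (ho : o < N) (hi : i < N) :
    Gad o N (N + 1) (fun v => 0 < v i) [⟨o, i, N, o, true⟩] := by
  refine ⟨by omega, ?_, ?_, ?_⟩
  · intro e he
    rw [List.mem_singleton] at he
    subst he
    simp only [PEq.lt]
    omega
  · intro v hv h
    simp only [psat_cons, PEq.holds, hv, if_true] at h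
    exact h.1.2
  · intro v hv h
    refine ⟨Function.update v N (tri (v i)), fun x hx => ?_, ?_⟩
    · rw [Function.update_of_ne (by omega)]
    · simp only [psat_cons, PEq.holds, Function.update_self, if_true]
      rw [Function.update_of_ne (by omega), Function.update_of_ne (by omega), hv]
      exact ⟨⟨by simp, h⟩, psat_nil⟩

/-- the list of the equations of the product gadget -/
def mulE (o N i j m : ℕ) : List PEq :=
  [⟨o, i, N, o, false⟩, ⟨o, j, N + 1, o, false⟩, ⟨o, N + 2, N + 3, o, false⟩] ++
    (sumE o (N + 5) i j (N + 2) ++ (sumE o (N + 10) N (N + 1) (N + 4) ++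
      sumE o (N + 15) (N + 4) m (N + 3)))

theorem gad_mul {o N i j m : ℕ} (ho : o < N) (hi : i < N) (hj : j < N) (hm : m < N) :
    Gad o N (N + 20) (fun v => v i * v j = v m) (mulE o N i j m) := by
  refine ⟨by omega, ?_, ?_, ?_⟩
  · intro e he
    simp only [mulE, List.mem_append] at he
    rcases he with h | h | h | h
    · simp only [List.mem_cons, List.not_mem_nil, or_false] at h
      rcases h with rfl | rfl | rfl <;> simp only [PEq.lt] <;> omega
    · exact (sumE_lt (by omega) (by omega) (by omega) (by omega) e h).mono (by omega)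
    · exact (sumE_lt (by omega) (by omega) (by omega) (by omega) e h).mono (by omega)
    · exact (sumE_lt (by omega) (by omega) (by omega) (by omega) e h).mono (by omega)
  · intro v hv h
    simp only [mulE, psat_append] at h
    obtain ⟨h1, h2, h3, h4⟩ := h
    simp only [psat_cons, PEq.holds, hv, Nat.zero_add, Nat.add_zero] at h1
    obtain ⟨⟨h5, -⟩, ⟨h6, -⟩, ⟨h7, -⟩, -⟩ := h1
    have h8 := sumE_sound hv h2
    have h9 := sumE_sound hv h3
    have h10 := sumE_sound hv h4
    rw [← h8, tri_add] at h7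
    omega
  · intro v hv h
    let w : ℕ → ℕ := fun x => if x < N then v x else if x = N then tri (v i)
      else if x = N + 1 then tri (v j) else if x = N + 2 then v i + v j
      else if x = N + 3 then tri (v i + v j) else tri (v i) + tri (v j)
    have hw : ∀ x < N, w x = v x := fun x hx => if_pos hx
    have w0 : w N = tri (v i) := by simp [w]
    have w1 : w (N + 1) = tri (v j) := by simp [w]
    have w2 : w (N + 2) = v i + v j := by simp [w]
    have w3 : w (N + 3) = tri (v i + v j) := by simp [w]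
    have w4 : w (N + 4) = tri (v i) + tri (v j) := by simp [w]
    have hwo : w o = 0 := by rw [hw o ho, hv]
    obtain ⟨w', a1, a2, -⟩ := sumE_compl (o := o) (N := N + 5) (i := i) (j := j) (s := N + 2)
      (by omega) (by omega) (by omega) (by omega) hwo (by rw [hw i hi, hw j hj, w2])
    obtain ⟨w'', b1, b2, -⟩ := sumE_compl (o := o) (N := N + 10) (i := N) (j := N + 1)
      (s := N + 4) (v := w') (by omega) (by omega) (by omega) (by omega)
      (by rw [a1 o (by omega), hwo])
      (by rw [a1 N (by omega), a1 (N + 1) (by omega), a1 (N + 4) (by omega), w0, w1, w4])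
    obtain ⟨w3', c1, c2, -⟩ := sumE_compl (o := o) (N := N + 15) (i := N + 4) (j := m)
      (s := N + 3) (v := w'') (by omega) (by omega) (by omega) (by omega)
      (by rw [b1 o (by omega), a1 o (by omega), hwo])
      (by
        rw [b1 (N + 4) (by omega), a1 (N + 4) (by omega), b1 m (by omega), a1 m (by omega),
          b1 (N + 3) (by omega), a1 (N + 3) (by omega), w4, w3, hw m hm, ← h, tri_add])
    have hall : ∀ x < N + 5, w3' x = w x := fun x hx => by
      rw [c1 x (by omega), b1 x (by omega), a1 x hx]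
    refine ⟨w3', fun x hx => by rw [hall x (by omega), hw x hx], ?_⟩
    simp only [mulE, psat_append]
    refine ⟨?_, ?_, ?_, c2⟩
    · simp only [psat_cons, PEq.holds, hall o (by omega), hall i (by omega), hall j (by omega),
        hall N (by omega), hall (N + 1) (by omega), hall (N + 2) (by omega),
        hall (N + 3) (by omega), hwo, hw i hi, hw j hj, w0, w1, w2, w3, Nat.zero_add,
        Nat.add_zero, Bool.false_eq_true, if_false, Nat.zero_le, and_true, true_and]
      exact psat_nil
    · refine PSat.congr (N := N + 10) (sumE_lt (by omega) (by omega) (by omega) (by omega))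
        (fun x hx => ?_) a2
      rw [c1 x (by omega), b1 x hx]
    · refine PSat.congr (N := N + 15) (sumE_lt (by omega) (by omega) (by omega) (by omega))
        (fun x hx => ?_) b2
      rw [c1 x hx]

theorem gad_atom {o N K : ℕ} (ho : o < N) (hK : K ≤ N) (a : Atom) (ha : a.lt K) :
    ∃ M E, Gad o N M (fun v => a.holds v) E := by
  cases a with
  | one i =>
    simp only [Atom.lt] at ha
    exact ⟨_, _, gad_one ho (by omega)⟩
  | add i j k =>
    simp only [Atom.lt] at ha
    exact ⟨_, _, gad_sum ho (by omega) (by omega) (by omega)⟩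
  | mul i j k =>
    simp only [Atom.lt] at ha
    exact ⟨_, _, gad_mul ho (by omega) (by omega) (by omega)⟩

theorem gad_list {o K : ℕ} (L : List Atom) (hL : ∀ a ∈ L, a.lt K) :
    ∀ N, o < N → K ≤ N → ∃ M E, Gad o N M (fun v => Sat L v) E := by
  induction L with
  | nil =>
    intro N _ _
    exact ⟨N, [], Gad.nil.congr fun v _ => by simp [Sat]⟩
  | cons a L ih =>
    intro N ho hK
    obtain ⟨M, E, h⟩ := gad_atom ho hK a (hL a (by simp))
    obtain ⟨M', E', h'⟩ := ih (fun b hb => hL b (List.mem_cons_of_mem _ hb)) M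
      (lt_of_lt_of_le ho h.le) (hK.trans h.le)
    refine ⟨M', E ++ E', (h.and ho h' ?_).congr ?_⟩
    · intro v w hvw hv
      exact Sat.congr (N := N) (fun b hb => Atom.lt_mono hK (hL b (List.mem_cons_of_mem _ hb)))
        hvw hv
    · intro v _
      simp only [Sat, List.forall_mem_cons]

theorem gad_allpos {o : ℕ} (K : ℕ) :
    ∀ N, o < N → K ≤ N → ∃ M E, Gad o N M (fun v => ∀ i < K, 0 < v i) E := by
  induction K with
  | zero =>
    intro N _ _
    exact ⟨N, [], Gad.nil.congr fun v _ => by simp⟩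
  | succ K ih =>
    intro N ho hK
    obtain ⟨M, E, h⟩ := ih N ho (by omega)
    refine ⟨_, _, (h.and ho (gad_pos (i := K) (lt_of_lt_of_le ho h.le)
      (by have := h.le; omega)) ?_).congr ?_⟩
    · intro v w hvw hv
      rw [← hvw K (by omega)]
      exact hv
    · intro v _
      constructor
      · rintro ⟨h1, h2⟩ i hi
        rcases Nat.lt_succ_iff_lt_or_eq.1 hi with h3 | rfl
        · exact h1 i h3
        · exact h2
      · intro h1
        exact ⟨fun i hi => h1 i (by omega), h1 K (by omega)⟩

theorem exists_bound (L : List Atom) : ∃ K, 0 < K ∧ ∀ a ∈ L, a.lt K := by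
  induction L with
  | nil => exact ⟨1, Nat.one_pos, by simp⟩
  | cons a L ih =>
    obtain ⟨K, hK, h⟩ := ih
    have h1 : ∃ K', a.lt K' := by
      cases a with
      | one i => exact ⟨i + 1, Nat.lt_succ_self i⟩
      | add i j k => exact ⟨i + j + k + 1, by simp only [Atom.lt]; omega⟩
      | mul i j k => exact ⟨i + j + k + 1, by simp only [Atom.lt]; omega⟩
    obtain ⟨K', hK'⟩ := h1
    refine ⟨K + K', by omega, ?_⟩
    intro b hb
    rcases List.mem_cons.1 hb with rfl | hb
    · exact Atom.lt_mono (by omega) hK'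
    · exact Atom.lt_mono (by omega) (h b hb)

theorem exists_max (v : ℕ → ℕ) (M : ℕ) : ∃ B, ∀ x < M, v x ≤ B := by
  induction M with
  | zero => exact ⟨0, fun x hx => absurd hx (Nat.not_lt_zero x)⟩
  | succ M ih =>
    obtain ⟨B, hB⟩ := ih
    refine ⟨B + v M, fun x hx => ?_⟩
    rcases Nat.lt_succ_iff_lt_or_eq.1 hx with h | rfl
    · have := hB x h
      omega
    · omega

/-- **The pairing system of an r.e. predicate.** -/
theorem exists_system {p : ℕ → Prop} (hp : REPred p) :
    ∃ (m a b : ℕ) (E : List PEq), 0 < a ∧ a < m ∧ 0 < b ∧ b < m ∧ a ≠ b ∧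
      (∀ e ∈ E, e.lt m) ∧
      (∀ v, PSat E v → v b = v a + v 0 ∧ ∃ n, v 0 = n + 1 ∧ p n) ∧
      (∀ n, p n → ∃ v, PSat E v ∧ v 0 = n + 1 ∧ ∀ x < m, v x ≤ v a ∨ v b ≤ v x) := by
  obtain ⟨L, hL⟩ := mrdp_atoms_pos hp
  obtain ⟨K, hK, hLK⟩ := exists_bound L
  obtain ⟨M1, E1, g1⟩ := gad_allpos (o := K) K (K + 1) (by omega) (by omega)
  obtain ⟨M2, E2, g2⟩ := gad_list (o := K) L hLK M1 (by have := g1.le; omega)
    (by have := g1.le; omega)
  have hle1 := g1.le
  have hle2 := g2.le
  refine ⟨M2 + 7, M2, M2 + 1, (⟨K, K, K, K, false⟩ :: (E1 ++ E2)) ++ sumE K (M2 + 2) M2 0 (M2 + 1),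
    by omega, by omega, by omega, by omega, by omega, ?_, ?_, ?_⟩
  · intro e he
    rcases List.mem_append.1 he with h | h
    · rcases List.mem_cons.1 h with rfl | h
      · simp only [PEq.lt]
        omega
      · rcases List.mem_append.1 h with h | h
        · exact (g1.lt e h).mono (by omega)
        · exact (g2.lt e h).mono (by omega)
    · exact (sumE_lt (by omega) (by omega) (by omega) (by omega) e h).mono (by omega)
  · intro v hv
    rw [psat_append, psat_cons, psat_append] at hv
    obtain ⟨⟨h1, h2, h3⟩, h4⟩ := hv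
    have ho : v K = 0 := by
      simp only [PEq.holds] at h1
      have := le_tri (v K + v K)
      omega
    have h5 := sumE_sound ho h4
    have h6 := g1.sound v ho h2
    have h7 := g2.sound v ho h3
    refine ⟨h5.symm, v 0 - 1, by have := h6 0 hK; omega, ?_⟩
    rw [hL]
    refine ⟨fun x => if x < K then v x else 1, ?_, ?_, ?_⟩
    · intro i
      by_cases hi : i < K
      · simp only [hi, if_true]
        exact h6 i hi
      · simp only [hi, if_false]
        exact Nat.one_pos
    · simp only [hK, if_true]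
      have := h6 0 hK
      omega
    · exact Sat.congr hLK (fun i hi => by simp only [hi, if_true]) h7
  · intro n hn
    rw [hL] at hn
    obtain ⟨x, hx, hx0, hsat⟩ := hn
    let w : ℕ → ℕ := fun i => if i < K then x i else 0
    have hw : ∀ i < K, w i = x i := fun i hi => if_pos hi
    have hwo : w K = 0 := by simp [w]
    obtain ⟨w1, a1, a2⟩ := g1.compl w hwo (fun i hi => by rw [hw i hi]; exact hx i)
    obtain ⟨w2, b1, b2⟩ := g2.compl w1 (by rw [a1 K (by omega), hwo])
      (Sat.congr hLK (fun i hi => by rw [a1 i (by omega), hw i hi]) hsat)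
    obtain ⟨B, hB⟩ := exists_max w2 M2
    have hw2o : w2 K = 0 := by rw [b1 K (by omega), a1 K (by omega), hwo]
    have hw20 : w2 0 = n + 1 := by rw [b1 0 (by omega), a1 0 (by omega), hw 0 hK, hx0]
    let w3 : ℕ → ℕ := fun i => if i < M2 then w2 i else if i = M2 then B else B + (n + 1)
    have hw3 : ∀ i < M2, w3 i = w2 i := fun i hi => if_pos hi
    have c0 : w3 M2 = B := by simp [w3]
    have c1 : w3 (M2 + 1) = B + (n + 1) := by simp [w3]
    obtain ⟨w4, d1, d2, d3⟩ := sumE_compl (o := K) (N := M2 + 2) (i := M2) (j := 0)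
      (s := M2 + 1) (v := w3) (by omega) (by omega) (by omega) (by omega)
      (by rw [hw3 K (by omega), hw2o]) (by rw [c0, c1, hw3 0 (by omega), hw20])
    have e1 : w4 M2 = B := by rw [d1 M2 (by omega), c0]
    have e2 : w4 (M2 + 1) = B + (n + 1) := by rw [d1 (M2 + 1) (by omega), c1]
    have e3 : ∀ i < M2, w4 i = w2 i := fun i hi => by rw [d1 i (by omega), hw3 i hi]
    refine ⟨w4, ?_, by rw [e3 0 (by omega), hw20], ?_⟩
    · rw [psat_append, psat_cons, psat_append]
      refine ⟨⟨?_, ?_, ?_⟩, d2⟩
      · simp only [PEq.holds, e3 K (by omega), hw2o, Nat.add_zero, tri_zero, Bool.false_eq_true,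
          if_false, le_refl, and_self]
      · exact PSat.congr g1.lt (fun i hi => by rw [e3 i (by omega), b1 i hi]) a2
      · exact PSat.congr g2.lt (fun i hi => by rw [e3 i hi]) b2
    · intro y hy
      rcases Nat.lt_or_ge y M2 with h | h
      · left
        rw [e3 y h, e1]
        exact hB y h
      · rcases Nat.lt_or_ge y (M2 + 2) with h' | h'
        · have h2 : y = M2 ∨ y = M2 + 1 := by omega
          rcases h2 with rfl | rfl
          · left; exact le_rfl
          · right; exact le_rfl
        · right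
          rw [e2, ← c1]
          exact d3 y h'

end Pool.Agent.W_59b51d_h88
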